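import Pool.Agent.BED.Stmts

/-!
# Row ORD of squad BED (MP_be01ff_an): integrals over the disc
-/

set_option autoImplicit false

namespace Pool.Agent.BED.H19

open Set Filter Topology MeasureTheory
open scoped InnerProductSpace ENNReal
open Pool.Agent.BE01 Pool.Agent.BED
open Pool.Agent.BEO (Pl BB ev lap rho)

theorem j0_cont : Continuous j0 := by
  have h : ∀ r : ℝ, 0 < r → ContinuousOn j0 (Icc (-r) r) := by
    intro r hr
    unfold j0
    refine continuousOn_tsum (u := fun k : ℕ => (r ^ 2) ^ k / (k.factorial : ℝ))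
      (fun k => by fun_prop) (Real.summable_pow_div_factorial _) fun k x hx => ?_
    have hx2 : x ^ 2 ≤ r ^ 2 := by
      rw [sq_le_sq, abs_of_pos hr]
      exact abs_le.2 ⟨hx.1, hx.2⟩
    have hf : (1 : ℝ) ≤ (k.factorial : ℝ) := by
      exact_mod_cast Nat.one_le_iff_ne_zero.2 (Nat.factorial_ne_zero k)
    have h4 : (1 : ℝ) ≤ 4 ^ k := one_le_pow₀ (by norm_num)
    have hb : |bj k| ≤ 1 / (k.factorial : ℝ) := by
      unfold bj
      rw [abs_div, abs_pow, abs_neg, abs_one, one_pow, abs_of_pos (by positivity)]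
      refine one_div_le_one_div_of_le (by positivity) ?_
      nlinarith [mul_le_mul h4 hf (by norm_num) (by positivity)]
    rw [Real.norm_eq_abs, abs_mul, pow_mul, abs_pow, abs_of_nonneg (sq_nonneg x)]
    calc |bj k| * (x ^ 2) ^ k ≤ 1 / (k.factorial : ℝ) * (r ^ 2) ^ k :=
          mul_le_mul hb (pow_le_pow_left₀ (sq_nonneg x) hx2 k) (by positivity) (by positivity)
      _ = (r ^ 2) ^ k / (k.factorial : ℝ) := by ring
  rw [continuous_iff_continuousAt]
  intro x
  have hx : x ∈ Ioo (-(|x| + 1)) (|x| + 1) := by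
    constructor
    · have := neg_abs_le x
      linarith
    · have := le_abs_self x
      linarith
  exact (h (|x| + 1) (by positivity)).continuousAt (Icc_mem_nhds hx.1 hx.2)

/-- integrals over the disc of a function of the norm -/
theorem int_disc (R : ℝ) (hR : 0 < R) (g : ℝ → ℝ) :
    ∫ y, g ‖y‖ ∂(mu (BB 2 R)) =
      2 * (volume.real (Metric.ball (0 : En 2) 1) * ∫ r in (0 : ℝ)..R, r * g r) := by
  have h1 : ∫ y, g ‖y‖ ∂(mu (BB 2 R)) = ∫ y : En 2, (Iio R).indicator g ‖y‖ := by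
    unfold mu
    rw [← integral_indicator (by unfold BB; exact measurableSet_ball)]
    refine integral_congr_ae (Eventually.of_forall fun y => ?_)
    have e : y ∈ BB 2 R ↔ ‖y‖ ∈ Iio R := by
      unfold BB
      rw [mem_ball_zero_iff, mem_Iio]
    by_cases hy : y ∈ BB 2 R
    · show (BB 2 R).indicator (fun y => g ‖y‖) y = (Iio R).indicator g ‖y‖
      rw [indicator_of_mem hy, indicator_of_mem (e.1 hy)]
    · show (BB 2 R).indicator (fun y => g ‖y‖) y = (Iio R).indicator g ‖y‖
      rw [indicator_of_notMem hy, indicator_of_notMem (fun h => hy (e.2 h))]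
  have h2 : Module.finrank ℝ (En 2) = 2 := by simp
  rw [h1, integral_fun_norm_addHaar volume ((Iio R).indicator g), h2]
  have h3 : ∫ y in Ioi (0 : ℝ), y ^ (2 - 1) • (Iio R).indicator g y =
      ∫ r in (0 : ℝ)..R, r * g r := by
    rw [intervalIntegral.integral_of_le hR.le, integral_Ioc_eq_integral_Ioo,
      ← integral_indicator measurableSet_Ioi, ← integral_indicator measurableSet_Ioo]
    refine integral_congr_ae (Eventually.of_forall fun r => ?_)
    show (Ioi (0 : ℝ)).indicator (fun y => y ^ (2 - 1) • (Iio R).indicator g y) r =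
      (Ioo 0 R).indicator (fun r => r * g r) r
    by_cases hr0 : r ∈ Ioi (0 : ℝ)
    · by_cases hr1 : r ∈ Iio R
      · have hr2 : r ∈ Ioo 0 R := ⟨hr0, hr1⟩
        rw [indicator_of_mem hr0, indicator_of_mem hr1, indicator_of_mem hr2]
        simp
      · rw [indicator_of_mem hr0, indicator_of_notMem hr1,
          indicator_of_notMem (fun h : r ∈ Ioo 0 R => hr1 h.2)]
        simp
    · rw [indicator_of_notMem hr0, indicator_of_notMem (fun h : r ∈ Ioo 0 R => hr0 h.1)]
  rw [h3]
  simp [nsmul_eq_mul]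

theorem int_pow (R x0 : ℝ) (φ : Lp ℝ 2 (mu (BB 2 R))) (hR : 0 < R) (hx0 : 0 < x0)
    (hφ : φ =ᵐ[mu (BB 2 R)] fun y => j0 (x0 * ‖y‖ / R)) (m : ℕ) :
    ∫ y, φ y ^ m ∂(mu (BB 2 R)) =
      2 * (volume.real (Metric.ball (0 : En 2) 1) * ((R / x0) ^ 2 *
        ∫ s in (0 : ℝ)..x0, s * j0 s ^ m)) := by
  have h1 : ∫ y, φ y ^ m ∂(mu (BB 2 R)) =
      ∫ y, j0 (x0 * ‖y‖ / R) ^ m ∂(mu (BB 2 R)) := by
    refine integral_congr_ae ?_
    filter_upwards [hφ] with y hy
    rw [hy]
  rw [h1]
  refine (int_disc R hR fun r => j0 (x0 * r / R) ^ m).trans ?_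
  congr 2
  have h2 : ∫ r in (0 : ℝ)..R, r * j0 (x0 * r / R) ^ m =
      ∫ r in (0 : ℝ)..R, (fun s => (R / x0) * (s * j0 s ^ m)) (r * (x0 / R)) := by
    refine intervalIntegral.integral_congr fun r _ => ?_
    have e : r * (x0 / R) = x0 * r / R := by ring
    simp only [e]
    field_simp
  rw [h2]
  refine (intervalIntegral.integral_comp_mul_right (fun s => (R / x0) * (s * j0 s ^ m))
    (by positivity : x0 / R ≠ 0)).trans ?_
  rw [zero_mul, intervalIntegral.integral_const_mul]
  have e2 : R * (x0 / R) = x0 := by field_simp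
  rw [e2, smul_eq_mul]
  field_simp

theorem ord (jlb : JlbStmt) : OrdStmt := by
  intro R x0 φ hR hx2 hx3 hj hφ
  have hx0 : 0 < x0 := by linarith
  have hV : 0 < volume.real (Metric.ball (0 : En 2) 1) := by
    rw [measureReal_def]
    exact ENNReal.toReal_pos (Metric.measure_ball_pos volume _ one_pos).ne' measure_ball_lt_top.ne
  obtain ⟨V, hVd⟩ : ∃ V, V = volume.real (Metric.ball (0 : En 2) 1) := ⟨_, rfl⟩
  have hint := int_pow R x0 φ hR hx0 hφ
  rw [← hVd] at hV hint
  constructor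
  · have hmem : ∀ᵐ y ∂(mu (BB 2 R)), y ∈ BB 2 R := by
      unfold mu BB
      exact ae_restrict_mem measurableSet_ball
    filter_upwards [hφ, hmem] with y hy hyR
    have h1 : ‖y‖ < R := by
      unfold BB at hyR
      rwa [mem_ball_zero_iff] at hyR
    have h2 : 0 ≤ x0 * ‖y‖ / R := by positivity
    have h3 : x0 * ‖y‖ / R ≤ x0 := by
      rw [div_le_iff₀ hR]
      exact mul_le_mul_of_nonneg_left h1.le hx0.le
    have h4 := hj _ h2 h3
    have h5 := (jlb _ h2 (by linarith)).2
    rw [hy, abs_of_nonneg h4]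
    refine h5.trans ?_
    have h6 : (x0 * ‖y‖ / R) ^ 2 ≤ (5 / 2) ^ 2 := pow_le_pow_left₀ h2 (by linarith) 2
    have h7 := sq_nonneg (x0 * ‖y‖ / R)
    refine pow_le_one₀ ?_ ?_
    · linarith
    · linarith
  · refine ⟨4 * V * (R / x0) ^ 2, by positivity, ?_, fun p => ?_⟩
    · rw [hint 2]
      have h1 : ∫ s in (0 : ℝ)..x0, s * j0 s ^ 2 ≤ 4 / 5 := by
        have hle : ∫ s in (0 : ℝ)..x0, s * j0 s ^ 2 ≤
            ∫ s in (0 : ℝ)..x0, s * (1 - s ^ 2 / 8) ^ 4 := by
          refine intervalIntegral.integral_mono_on hx0.le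
            ((continuous_id.mul (j0_cont.pow 2)).intervalIntegrable _ _)
            ((by fun_prop : Continuous fun s : ℝ => s * (1 - s ^ 2 / 8) ^ 4).intervalIntegrable _ _)
            fun s hs => ?_
          have h3 := (jlb s hs.1 (by linarith [hs.2])).2
          have h4 := hj s hs.1 hs.2
          refine mul_le_mul_of_nonneg_left ?_ hs.1
          calc j0 s ^ 2 ≤ ((1 - s ^ 2 / 8) ^ 2) ^ 2 := pow_le_pow_left₀ h4 h3 2
            _ = (1 - s ^ 2 / 8) ^ 4 := by ring
        have hval : ∫ s in (0 : ℝ)..x0, s * (1 - s ^ 2 / 8) ^ 4 =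
            -(4 / 5) * (1 - x0 ^ 2 / 8) ^ 5 - -(4 / 5) * (1 - (0 : ℝ) ^ 2 / 8) ^ 5 := by
          refine intervalIntegral.integral_eq_sub_of_hasDerivAt
            (f := fun s => -(4 / 5) * (1 - s ^ 2 / 8) ^ 5) (fun s _ => ?_)
            ((by fun_prop : Continuous fun s : ℝ => s * (1 - s ^ 2 / 8) ^ 4).intervalIntegrable _ _)
          have h5 : HasDerivAt (fun s : ℝ => 1 - s ^ 2 / 8) (-((2 : ℕ) * s ^ (2 - 1) / 8)) s :=
            ((hasDerivAt_pow 2 s).div_const 8).const_sub 1
          have h6 := (h5.pow 5).const_mul (-(4 / 5) : ℝ)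
          have e : -(4 / 5) * (((5 : ℕ) : ℝ) * (1 - s ^ 2 / 8) ^ (5 - 1) *
              -((2 : ℕ) * s ^ (2 - 1) / 8)) = s * (1 - s ^ 2 / 8) ^ 4 := by
            push_cast
            ring
          rw [e] at h6
          exact h6
        rw [hval] at hle
        have h8 : 0 ≤ (1 - x0 ^ 2 / 8) ^ 5 := by
          refine pow_nonneg ?_ 5
          nlinarith
        nlinarith
      have h2 : 0 ≤ V * (R / x0) ^ 2 := by positivity
      nlinarith [mul_le_mul_of_nonneg_left h1 h2]
    · rw [hint (2 * p + 2)]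
      obtain ⟨m, hm⟩ : ∃ m, m = 2 * p + 2 := ⟨_, rfl⟩
      have e0 : (2 * (p : ℝ) + 3) = (m : ℝ) + 1 := by
        rw [hm]
        push_cast
        ring
      rw [← hm, e0]
      have h1 : 2 / ((m : ℝ) + 1) ≤ ∫ s in (0 : ℝ)..x0, s * j0 s ^ m := by
        have hii : ∀ a b : ℝ, IntervalIntegrable (fun s => s * j0 s ^ m) volume a b := fun a b =>
          (continuous_id.mul (j0_cont.pow m)).intervalIntegrable _ _
        have hsplit := intervalIntegral.integral_add_adjacent_intervals (hii 0 2) (hii 2 x0)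
        have h2 : 0 ≤ ∫ s in (2 : ℝ)..x0, s * j0 s ^ m := by
          refine intervalIntegral.integral_nonneg hx2 fun s hs => ?_
          exact mul_nonneg (by linarith [hs.1]) (pow_nonneg (hj s (by linarith [hs.1]) hs.2) m)
        have hle : ∫ s in (0 : ℝ)..2, s * (1 - s ^ 2 / 4) ^ m ≤
            ∫ s in (0 : ℝ)..2, s * j0 s ^ m := by
          refine intervalIntegral.integral_mono_on (by norm_num)
            ((by fun_prop : Continuous fun s : ℝ => s * (1 - s ^ 2 / 4) ^ m).intervalIntegrable _ _)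
            (hii 0 2) fun s hs => ?_
          have h3 := (jlb s hs.1 (by linarith [hs.2])).1
          refine mul_le_mul_of_nonneg_left (pow_le_pow_left₀ ?_ h3 m) hs.1
          nlinarith [hs.1, hs.2]
        have hval : ∫ s in (0 : ℝ)..2, s * (1 - s ^ 2 / 4) ^ m =
            -(2 / ((m : ℝ) + 1)) * (1 - (2 : ℝ) ^ 2 / 4) ^ (m + 1) -
              -(2 / ((m : ℝ) + 1)) * (1 - (0 : ℝ) ^ 2 / 4) ^ (m + 1) := by
          refine intervalIntegral.integral_eq_sub_of_hasDerivAt
            (f := fun s => -(2 / ((m : ℝ) + 1)) * (1 - s ^ 2 / 4) ^ (m + 1)) (fun s _ => ?_)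
            ((by fun_prop : Continuous fun s : ℝ => s * (1 - s ^ 2 / 4) ^ m).intervalIntegrable _ _)
          have h5 : HasDerivAt (fun s : ℝ => 1 - s ^ 2 / 4) (-((2 : ℕ) * s ^ (2 - 1) / 4)) s :=
            ((hasDerivAt_pow 2 s).div_const 4).const_sub 1
          have h6 := (h5.pow (m + 1)).const_mul (-(2 / ((m : ℝ) + 1)) : ℝ)
          have hm1 : (m : ℝ) + 1 ≠ 0 := by positivity
          have e : -(2 / ((m : ℝ) + 1)) * (((m + 1 : ℕ) : ℝ) * (1 - s ^ 2 / 4) ^ (m + 1 - 1) *
              -((2 : ℕ) * s ^ (2 - 1) / 4)) = s * (1 - s ^ 2 / 4) ^ m := by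
            rw [Nat.add_sub_cancel]
            push_cast
            field_simp
            ring
          rw [e] at h6
          exact h6
        have hz : (1 - (2 : ℝ) ^ 2 / 4) ^ (m + 1) = 0 := by
          rw [show (1 - (2 : ℝ) ^ 2 / 4) = 0 by norm_num, zero_pow (Nat.succ_ne_zero m)]
        have ho : (1 - (0 : ℝ) ^ 2 / 4) ^ (m + 1) = 1 := by
          rw [show (1 - (0 : ℝ) ^ 2 / 4) = 1 by norm_num, one_pow]
        rw [hval, hz, ho] at hle
        linarith
      have h2 : 0 ≤ V * (R / x0) ^ 2 := by positivity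
      have e1 : 4 * V * (R / x0) ^ 2 / ((m : ℝ) + 1) =
          2 * (V * (R / x0) ^ 2 * (2 / ((m : ℝ) + 1))) := by ring
      rw [e1]
      have h3 := mul_le_mul_of_nonneg_left h1 h2
      calc 2 * (V * (R / x0) ^ 2 * (2 / ((m : ℝ) + 1)))
          ≤ 2 * (V * (R / x0) ^ 2 * ∫ s in (0 : ℝ)..x0, s * j0 s ^ m) := by linarith
        _ = _ := by ring

end Pool.Agent.BED.H19
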